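import Pool.Agent.U6.VE.Stm

/-!
# Project VE, package MOM

Moments of sums of independent bounded complex random variables.
-/

set_option autoImplicit false

namespace Pool.Agent.U978.VE.MOM

open MeasureTheory ProbabilityTheory Pool.Agent.U6.VE
open scoped BigOperators ENNReal NNReal

section
variable {Ω : Type} [MeasurableSpace Ω] {P : Measure Ω} [IsProbabilityMeasure P]

lemma pow_le_exp (q : ℕ) (x : ℝ) :
    x ^ (2 * q) ≤ ((2 * q).factorial : ℝ) * (Real.exp x + Real.exp (-x)) := by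
  have h1 : |x| ^ (2 * q) / ((2 * q).factorial : ℝ) ≤ Real.exp |x| :=
    Real.pow_div_factorial_le_exp |x| (abs_nonneg x) (2 * q)
  have h2 : Real.exp |x| ≤ Real.exp x + Real.exp (-x) := by
    rcases abs_cases x with ⟨h, -⟩ | ⟨h, -⟩
    · rw [h]; linarith [Real.exp_pos (-x)]
    · rw [h]; linarith [Real.exp_pos x]
  have h3 : |x| ^ (2 * q) = x ^ (2 * q) := by
    rw [pow_mul, sq_abs, ← pow_mul]
  have hf : (0 : ℝ) < ((2 * q).factorial : ℝ) := by positivity
  rw [h3, div_le_iff₀ hf] at h1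
  calc x ^ (2 * q) ≤ Real.exp |x| * ((2 * q).factorial : ℝ) := h1
    _ = ((2 * q).factorial : ℝ) * Real.exp |x| := mul_comm _ _
    _ ≤ _ := by gcongr

/-- the real case -/
lemma real_case (q : ℕ) (X : ℕ → Ω → ℝ) (hm : ∀ n, Measurable (X n)) (hi : iIndepFun X P)
    (hb : ∀ n ω, |X n ω| ≤ 2) (h0 : ∀ n, ∫ ω, X n ω ∂P = 0) (A : Finset ℕ) (hA : 0 < A.card) :
    ∫ ω, (∑ n ∈ A, X n ω) ^ (2 * q) ∂P ≤
      ((2 * q).factorial : ℝ) * (2 * Real.exp 2) * (A.card : ℝ) ^ q := by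
  have hsub : ∀ n ∈ A, HasSubgaussianMGF (X n) ((‖(2 : ℝ) - (-2)‖₊ / 2) ^ 2) P := by
    intro n _
    refine hasSubgaussianMGF_of_mem_Icc_of_integral_eq_zero (hm n).aemeasurable ?_ (h0 n)
    exact Filter.Eventually.of_forall fun ω => abs_le.1 (hb n ω)
  have hc : ((‖(2 : ℝ) - (-2)‖₊ / 2) ^ 2 : ℝ≥0) = 4 := by
    apply NNReal.coe_injective
    push_cast
    rw [Real.norm_eq_abs]
    norm_num
  rw [hc] at hsub
  have hS := HasSubgaussianMGF.sum_of_iIndepFun hi hsub
  have hcard : (0 : ℝ) < (A.card : ℝ) := by exact_mod_cast hA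
  set l : ℝ := 1 / Real.sqrt A.card with hl
  have hsq : 0 < Real.sqrt A.card := Real.sqrt_pos.2 hcard
  have hl0 : 0 < l := by positivity
  have hl2 : l ^ 2 * A.card = 1 := by
    rw [hl, div_pow, Real.sq_sqrt hcard.le]
    field_simp
  have hsum : ((∑ i ∈ A, (4 : ℝ≥0) : ℝ≥0) : ℝ) = 4 * A.card := by
    push_cast
    rw [Finset.sum_const, nsmul_eq_mul]
    ring
  have hmgf : ∀ t : ℝ, t ^ 2 = l ^ 2 →
      ∫ ω, Real.exp (t * ∑ n ∈ A, X n ω) ∂P ≤ Real.exp 2 := by
    intro t ht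
    have h1 := hS.mgf_le t
    unfold mgf at h1
    rw [hsum, ht] at h1
    have h2 : 4 * (A.card : ℝ) * l ^ 2 / 2 = 2 := by
      have : 4 * (A.card : ℝ) * l ^ 2 / 2 = 2 * (l ^ 2 * A.card) := by ring
      rw [this, hl2]
      norm_num
    rw [h2] at h1
    exact h1
  have hint : ∀ t : ℝ, Integrable (fun ω => Real.exp (t * ∑ n ∈ A, X n ω)) P :=
    fun t => hS.integrable_exp_mul t
  have key : ∀ ω, (∑ n ∈ A, X n ω) ^ (2 * q) ≤ (A.card : ℝ) ^ q * (((2 * q).factorial : ℝ) *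
      (Real.exp (l * ∑ n ∈ A, X n ω) + Real.exp (-l * ∑ n ∈ A, X n ω))) := by
    intro ω
    have h1 := pow_le_exp q (l * ∑ n ∈ A, X n ω)
    have h2 : (∑ n ∈ A, X n ω) ^ (2 * q) = (A.card : ℝ) ^ q * (l * ∑ n ∈ A, X n ω) ^ (2 * q) := by
      rw [mul_pow, ← mul_assoc, pow_mul l, ← mul_pow, mul_comm (A.card : ℝ), hl2, one_pow, one_mul]
    rw [h2]
    rw [← neg_mul] at h1
    gcongr
  have hmS : Measurable (fun ω => ∑ n ∈ A, X n ω) := Finset.measurable_fun_sum _ fun n _ => hm n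
  have hintR : Integrable (fun ω => (A.card : ℝ) ^ q * (((2 * q).factorial : ℝ) *
      (Real.exp (l * ∑ n ∈ A, X n ω) + Real.exp (-l * ∑ n ∈ A, X n ω)))) P :=
    (((hint l).add (hint (-l))).const_mul _).const_mul _
  have hintL : Integrable (fun ω => (∑ n ∈ A, X n ω) ^ (2 * q)) P := by
    refine hintR.mono' (hmS.pow_const _).aestronglyMeasurable ?_
    refine Filter.Eventually.of_forall fun ω => ?_
    rw [Real.norm_eq_abs, abs_of_nonneg (Even.pow_nonneg (even_two_mul q) _)]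
    exact key ω
  calc ∫ ω, (∑ n ∈ A, X n ω) ^ (2 * q) ∂P ≤ ∫ ω, (A.card : ℝ) ^ q * (((2 * q).factorial : ℝ) *
      (Real.exp (l * ∑ n ∈ A, X n ω) + Real.exp (-l * ∑ n ∈ A, X n ω))) ∂P :=
        integral_mono hintL hintR key
    _ = (A.card : ℝ) ^ q * (((2 * q).factorial : ℝ) *
      (∫ ω, Real.exp (l * ∑ n ∈ A, X n ω) ∂P + ∫ ω, Real.exp (-l * ∑ n ∈ A, X n ω) ∂P)) := by
        rw [integral_const_mul, integral_const_mul, integral_add (hint l) (hint (-l))]
    _ ≤ (A.card : ℝ) ^ q * (((2 * q).factorial : ℝ) * (Real.exp 2 + Real.exp 2)) := by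
        gcongr
        · exact hmgf l rfl
        · exact hmgf (-l) (neg_sq l)
    _ = _ := by ring

end

theorem t_MOM : T_MOM := by
  intro q
  refine ⟨2 ^ q * (2 * (((2 * q).factorial : ℝ) * (2 * Real.exp 2))), by positivity, ?_⟩
  intro Ω _ P _ r hm hi hb h0 A
  rcases Nat.eq_zero_or_pos A.card with hA | hA
  · have hA' : A = ∅ := Finset.card_eq_zero.1 hA
    subst hA'
    rcases Nat.eq_zero_or_pos q with rfl | hq
    · simp
      have := Real.add_one_le_exp (2 : ℝ)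
      linarith
    · have h1 : 2 * q ≠ 0 := by omega
      simp [h1, hq.ne']
  have hint : ∀ n, Integrable (r n) P := fun n =>
    Integrable.of_bound (hm n).aestronglyMeasurable 2 (Filter.Eventually.of_forall (hb n))
  have hre := real_case (P := P) q (fun n ω => (r n ω).re) (fun n => Complex.measurable_re.comp (hm n))
    (hi.comp (fun _ => Complex.re) fun _ => Complex.measurable_re)
    (fun n ω => (Complex.abs_re_le_norm _).trans (hb n ω))
    (fun n => by
      have := integral_re (hint n)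
      rw [h0 n] at this
      simpa using this) A hA
  have him := real_case (P := P) q (fun n ω => (r n ω).im) (fun n => Complex.measurable_im.comp (hm n))
    (hi.comp (fun _ => Complex.im) fun _ => Complex.measurable_im)
    (fun n ω => (Complex.abs_im_le_norm _).trans (hb n ω))
    (fun n => by
      have := integral_im (hint n)
      rw [h0 n] at this
      simpa using this) A hA
  have hmR : Measurable (fun ω => ∑ n ∈ A, (r n ω).re) :=
    Finset.measurable_fun_sum _ fun n _ => Complex.measurable_re.comp (hm n)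
  have hmI : Measurable (fun ω => ∑ n ∈ A, (r n ω).im) :=
    Finset.measurable_fun_sum _ fun n _ => Complex.measurable_im.comp (hm n)
  have hbound : ∀ (f : Ω → ℝ), Measurable f → (∀ ω, |f ω| ≤ 2 * A.card) →
      Integrable (fun ω => f ω ^ (2 * q)) P := by
    intro f hf hfb
    refine Integrable.of_bound (hf.pow_const _).aestronglyMeasurable ((2 * A.card) ^ (2 * q)) ?_
    refine Filter.Eventually.of_forall fun ω => ?_
    rw [norm_pow, Real.norm_eq_abs]
    gcongr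
    exact hfb ω
  have hI1 := hbound _ hmR (fun ω => by
    calc |∑ n ∈ A, (r n ω).re| ≤ ∑ n ∈ A, |(r n ω).re| := Finset.abs_sum_le_sum_abs _ _
      _ ≤ ∑ _n ∈ A, (2 : ℝ) := by
        gcongr with n hn
        exact (Complex.abs_re_le_norm _).trans (hb n ω)
      _ = 2 * A.card := by rw [Finset.sum_const, nsmul_eq_mul]; ring)
  have hI2 := hbound _ hmI (fun ω => by
    calc |∑ n ∈ A, (r n ω).im| ≤ ∑ n ∈ A, |(r n ω).im| := Finset.abs_sum_le_sum_abs _ _
      _ ≤ ∑ _n ∈ A, (2 : ℝ) := by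
        gcongr with n hn
        exact (Complex.abs_im_le_norm _).trans (hb n ω)
      _ = 2 * A.card := by rw [Finset.sum_const, nsmul_eq_mul]; ring)
  have key : ∀ ω, ‖∑ n ∈ A, r n ω‖ ^ (2 * q) ≤
      2 ^ q * ((∑ n ∈ A, (r n ω).re) ^ (2 * q) + (∑ n ∈ A, (r n ω).im) ^ (2 * q)) := by
    intro ω
    have h1 : ‖∑ n ∈ A, r n ω‖ ^ 2 = (∑ n ∈ A, (r n ω).re) ^ 2 + (∑ n ∈ A, (r n ω).im) ^ 2 := by
      rw [← Complex.normSq_eq_norm_sq, Complex.normSq_apply, Complex.re_sum, Complex.im_sum]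
      ring
    rw [pow_mul, h1, pow_mul, pow_mul]
    set a := (∑ n ∈ A, (r n ω).re) ^ 2
    set b := (∑ n ∈ A, (r n ω).im) ^ 2
    have ha : 0 ≤ a := sq_nonneg _
    have hb' : 0 ≤ b := sq_nonneg _
    rcases le_total a b with h | h
    · calc (a + b) ^ q ≤ (2 * b) ^ q := by gcongr; linarith
        _ = 2 ^ q * b ^ q := mul_pow _ _ _
        _ ≤ 2 ^ q * (a ^ q + b ^ q) := by gcongr; linarith [pow_nonneg ha q]
    · calc (a + b) ^ q ≤ (2 * a) ^ q := by gcongr; linarith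
        _ = 2 ^ q * a ^ q := mul_pow _ _ _
        _ ≤ 2 ^ q * (a ^ q + b ^ q) := by gcongr; linarith [pow_nonneg hb' q]
  have hIR : Integrable (fun ω =>
      2 ^ q * ((∑ n ∈ A, (r n ω).re) ^ (2 * q) + (∑ n ∈ A, (r n ω).im) ^ (2 * q))) P :=
    (hI1.add hI2).const_mul _
  calc ∫ ω, ‖∑ n ∈ A, r n ω‖ ^ (2 * q) ∂P
      ≤ ∫ ω, 2 ^ q * ((∑ n ∈ A, (r n ω).re) ^ (2 * q) + (∑ n ∈ A, (r n ω).im) ^ (2 * q)) ∂P :=
        integral_mono_of_nonneg (Filter.Eventually.of_forall fun ω => by positivity) hIR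
          (Filter.Eventually.of_forall key)
    _ = 2 ^ q * (∫ ω, (∑ n ∈ A, (r n ω).re) ^ (2 * q) ∂P +
          ∫ ω, (∑ n ∈ A, (r n ω).im) ^ (2 * q) ∂P) := by
        rw [integral_const_mul, integral_add hI1 hI2]
    _ ≤ 2 ^ q * (((2 * q).factorial : ℝ) * (2 * Real.exp 2) * (A.card : ℝ) ^ q +
          ((2 * q).factorial : ℝ) * (2 * Real.exp 2) * (A.card : ℝ) ^ q) := by
        gcongr
    _ = _ := by ring

end Pool.Agent.U978.VE.MOM
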